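import Pool.Agent.helper67.RG.Spec

/-!
# Row rg:IPF (MP_2e0e07_nt)

The Lie algebra of pairs induced on the factors of a flag.
-/

set_option autoImplicit false
set_option linter.unusedSectionVars false
set_option linter.dupNamespace false

namespace Pool.Agent.RG.IPF

open Matrix Polynomial Pool.Agent.GO Pool.Agent.AR MeasureTheory Kronecker

section

variable {F Γ m : Type*} [Field F] [Group Γ] [Fintype m] [DecidableEq m]

/-- the pair `p'` is induced by `p` on the factors -/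
def Rel {N : ℕ} (c : ℕ → Submodule F (m → F)) {d : Fin N → ℕ}
    (π : (i : Fin N) → c (i.1 + 1) →ₗ[F] (Fin (d i) → F))
    (p : Matrix m m F × Matrix (Fin 2) (Fin 2) F)
    (p' : ((i : Fin N) → Matrix (Fin (d i)) (Fin (d i)) F) × Matrix (Fin 2) (Fin 2) F) : Prop :=
  p'.2 = p.2 ∧ ∀ (i : Fin N) (x y : c (i.1 + 1)), y.1 = p.1 *ᵥ x.1 → π i y = p'.1 i *ᵥ π i x

variable {N : ℕ} {c : ℕ → Submodule F (m → F)} {d : Fin N → ℕ}
    {π : (i : Fin N) → c (i.1 + 1) →ₗ[F] (Fin (d i) → F)}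

lemma rel_zero : Rel c π 0 0 := by
  refine ⟨rfl, fun i x y hy => ?_⟩
  have h0 : y = 0 := by
    apply Subtype.ext
    rw [hy]
    exact Matrix.zero_mulVec _
  rw [h0, map_zero]
  exact (Matrix.zero_mulVec _).symm

lemma rel_add {p q : Matrix m m F × Matrix (Fin 2) (Fin 2) F}
    {p' q' : ((i : Fin N) → Matrix (Fin (d i)) (Fin (d i)) F) × Matrix (Fin 2) (Fin 2) F}
    (hp : ∀ i : Fin N, ∀ x ∈ c (i.1 + 1), p.1 *ᵥ x ∈ c (i.1 + 1))
    (hq : ∀ i : Fin N, ∀ x ∈ c (i.1 + 1), q.1 *ᵥ x ∈ c (i.1 + 1))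
    (h1 : Rel c π p p') (h2 : Rel c π q q') : Rel c π (p + q) (p' + q') := by
  refine ⟨?_, fun i x y hy => ?_⟩
  · rw [Prod.snd_add, Prod.snd_add, h1.1, h2.1]
  · have e : y = ⟨p.1 *ᵥ x.1, hp i x.1 x.2⟩ + ⟨q.1 *ᵥ x.1, hq i x.1 x.2⟩ := by
      apply Subtype.ext
      rw [hy, Prod.fst_add, Matrix.add_mulVec]
      rfl
    rw [e, map_add, h1.2 i x ⟨p.1 *ᵥ x.1, hp i x.1 x.2⟩ rfl,
      h2.2 i x ⟨q.1 *ᵥ x.1, hq i x.1 x.2⟩ rfl, ← Matrix.add_mulVec]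
    rfl

lemma rel_smul {p : Matrix m m F × Matrix (Fin 2) (Fin 2) F}
    {p' : ((i : Fin N) → Matrix (Fin (d i)) (Fin (d i)) F) × Matrix (Fin 2) (Fin 2) F}
    (hp : ∀ i : Fin N, ∀ x ∈ c (i.1 + 1), p.1 *ᵥ x ∈ c (i.1 + 1))
    (h1 : Rel c π p p') (a : F) : Rel c π (a • p) (a • p') := by
  refine ⟨?_, fun i x y hy => ?_⟩
  · rw [Prod.smul_snd, Prod.smul_snd, h1.1]
  · have e : y = a • ⟨p.1 *ᵥ x.1, hp i x.1 x.2⟩ := by
      apply Subtype.ext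
      rw [hy, Prod.smul_fst, Matrix.smul_mulVec]
      rfl
    rw [e, map_smul, h1.2 i x _ rfl, ← Matrix.smul_mulVec]
    rfl

lemma rel_mul {p q : Matrix m m F × Matrix (Fin 2) (Fin 2) F}
    {p' q' : ((i : Fin N) → Matrix (Fin (d i)) (Fin (d i)) F) × Matrix (Fin 2) (Fin 2) F}
    (hq : ∀ i : Fin N, ∀ x ∈ c (i.1 + 1), q.1 *ᵥ x ∈ c (i.1 + 1))
    (h1 : Rel c π p p') (h2 : Rel c π q q') : Rel c π (p * q) (p' * q') := by
  refine ⟨?_, fun i x y hy => ?_⟩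
  · rw [Prod.snd_mul, Prod.snd_mul, h1.1, h2.1]
  · have e1 := h2.2 i x ⟨q.1 *ᵥ x.1, hq i x.1 x.2⟩ rfl
    have e2 := h1.2 i ⟨q.1 *ᵥ x.1, hq i x.1 x.2⟩ y (by
      rw [hy, Prod.fst_mul, Matrix.mulVec_mulVec])
    rw [e2, e1, Matrix.mulVec_mulVec]
    rfl

end

theorem IPF.{u1, u2, u3} (hNIL : NIL_stmt.{u1, u2, u3}) : IPF_stmt.{u1, u2, u3} := by
  intro F Γ m _ _ _ _ _ _ V ρ hρ L hL hS N c hc d W π hf
  -- stability of the members of the flag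
  have st : ∀ p ∈ L, ∀ i : Fin N, ∀ x ∈ c (i.1 + 1), p.1 *ᵥ x ∈ c (i.1 + 1) :=
    fun p hp i x hx => hS p hp (c (i.1 + 1)) (hc.stable (i.1 + 1) i.2) x hx
  have st0 : ∀ p ∈ L, ∀ i : Fin N, ∀ x ∈ c i.1, p.1 *ᵥ x ∈ c i.1 :=
    fun p hp i x hx => hS p hp (c i.1) (hc.stable i.1 i.2.le) x hx
  -- the induced space
  let L' : Submodule F (((i : Fin N) → Matrix (Fin (d i)) (Fin (d i)) F) ×
      Matrix (Fin 2) (Fin 2) F) :=
    { carrier := {p' | ∃ p ∈ L, Rel c π p p'}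
      add_mem' := by
        rintro p' q' ⟨p, hp, h1⟩ ⟨q, hq, h2⟩
        exact ⟨p + q, L.add_mem hp hq, rel_add (st p hp) (st q hq) h1 h2⟩
      zero_mem' := ⟨0, L.zero_mem, rel_zero⟩
      smul_mem' := by
        rintro a p' ⟨p, hp, h1⟩
        exact ⟨a • p, L.smul_mem a hp, rel_smul (st p hp) h1 a⟩ }
  have memL' : ∀ p', p' ∈ L' ↔ ∃ p ∈ L, Rel c π p p' := fun p' => Iff.rfl
  -- existence of the induced pair
  have ex : ∀ p ∈ L, ∃ p', Rel c π p p' := by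
    intro p hp
    have key : ∀ i : Fin N, ∃ X : Matrix (Fin (d i)) (Fin (d i)) F, ∀ x y : c (i.1 + 1),
        y.1 = p.1 *ᵥ x.1 → π i y = X *ᵥ π i x := by
      intro i
      obtain ⟨s, hs⟩ := LinearMap.exists_rightInverse_of_surjective (π i)
        (LinearMap.range_eq_top.2 (hf i).surj)
      let T : c (i.1 + 1) →ₗ[F] c (i.1 + 1) :=
        (p.1.mulVecLin).restrict (fun x hx => st p hp i x hx)
      refine ⟨LinearMap.toMatrix' ((π i).comp (T.comp s)), fun x y hy => ?_⟩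
      have hT : ∀ z : c (i.1 + 1), (T z).1 = p.1 *ᵥ z.1 := fun z => rfl
      rw [LinearMap.toMatrix'_mulVec]
      change π i y = π i (T (s (π i x)))
      have h1 : π i (s (π i x) - x) = 0 := by
        rw [map_sub, sub_eq_zero]
        have := LinearMap.congr_fun hs (π i x)
        exact this
      have h2 : (s (π i x) - x).1 ∈ c i.1 := ((hf i).ker _).1 h1
      have h3 : (T (s (π i x) - x)).1 ∈ c i.1 := by
        rw [hT]
        exact st0 p hp i _ h2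
      have h4 : π i (T (s (π i x) - x)) = 0 := ((hf i).ker _).2 h3
      rw [map_sub, map_sub, sub_eq_zero] at h4
      rw [h4]
      have : y = T x := by
        apply Subtype.ext
        rw [hy, hT]
      rw [this]
    choose X hX using key
    exact ⟨(X, p.2), rfl, hX⟩
  refine ⟨L', ⟨?_, ?_, ?_, ?_⟩, ?_⟩
  · -- lie
    rintro p' ⟨p, hp, h1⟩ q' ⟨q, hq, h2⟩
    refine ⟨p * q - q * p, hL.lie p hp q hq, ?_⟩
    have e1 := rel_mul (st q hq) h1 h2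
    have e2 := rel_mul (st p hp) h2 h1
    have stm : ∀ p q : Matrix m m F × Matrix (Fin 2) (Fin 2) F, p ∈ L → q ∈ L →
        ∀ i : Fin N, ∀ x ∈ c (i.1 + 1), (p * q).1 *ᵥ x ∈ c (i.1 + 1) := by
      intro p q hp hq i x hx
      rw [Prod.fst_mul, ← Matrix.mulVec_mulVec]
      exact st p hp i _ (st q hq i x hx)
    have e3 := rel_smul (stm q p hq hp) e2 (-1)
    have e4 := rel_add (stm p q hp hq) (q := (-1 : F) • (q * p)) (by
      intro i x hx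
      rw [Prod.smul_fst, Matrix.smul_mulVec]
      exact (c (i.1 + 1)).smul_mem _ (stm q p hq hp i x hx)) e1 e3
    have r1 : p * q + (-1 : F) • (q * p) = p * q - q * p := by
      rw [neg_one_smul, sub_eq_add_neg]
    have r2 : p' * q' + (-1 : F) • (q' * p') = p' * q' - q' * p' := by
      rw [neg_one_smul, sub_eq_add_neg]
    rw [r1, r2] at e4
    exact e4
  · -- conj
    rintro g p' ⟨p, hp, h1⟩
    refine ⟨_, hL.conj g p hp, ?_, fun i x y hy => ?_⟩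
    · change ρ g * p'.2 * ρ g⁻¹ = ρ g * p.2 * ρ g⁻¹
      rw [h1.1]
    · have hst := hc.stable (i.1 + 1) i.2
      let x1 : c (i.1 + 1) := ⟨V g⁻¹ *ᵥ x.1, hst _ _ x.2⟩
      let x2 : c (i.1 + 1) := ⟨p.1 *ᵥ x1.1, st p hp i _ x1.2⟩
      have e1 := (hf i).equiv g⁻¹ x x1 rfl
      have e2 := h1.2 i x1 x2 rfl
      have e3 := (hf i).equiv g x2 y (by
        rw [hy]
        change (V g * p.1 * V g⁻¹) *ᵥ x.1 = V g *ᵥ (p.1 *ᵥ (V g⁻¹ *ᵥ x.1))
        rw [Matrix.mulVec_mulVec, Matrix.mulVec_mulVec, Matrix.mul_assoc])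
      rw [e3, e2, e1, Matrix.mulVec_mulVec, Matrix.mulVec_mulVec]
      change _ = (W i g * p'.1 i * W i g⁻¹) *ᵥ π i x
      rw [Matrix.mul_assoc]
  · -- inj
    rintro p' ⟨p, hp, h1⟩ h0
    rw [h1.1]
    refine hNIL V ρ hρ L hL hS N c hc p hp ?_
    intro i hi x hx
    have := h1.2 ⟨i, hi⟩ ⟨x, hx⟩ ⟨p.1 *ᵥ x, st p hp ⟨i, hi⟩ x hx⟩ rfl
    rw [h0] at this
    have h2 : π ⟨i, hi⟩ ⟨p.1 *ᵥ x, st p hp ⟨i, hi⟩ x hx⟩ = 0 := by
      rw [this]
      exact Matrix.zero_mulVec _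
    exact ((hf ⟨i, hi⟩).ker _).1 h2
  · -- ns
    obtain ⟨p, hp, h1⟩ := hL.ns
    obtain ⟨p', h2⟩ := ex p hp
    exact ⟨p', ⟨p, hp, h2⟩, by rw [h2.1]; exact h1⟩
  · rintro p' ⟨p, hp, h1⟩
    exact ⟨p, hp, h1.1, h1.2⟩

end Pool.Agent.RG.IPF
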